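import Pool.Agent.Helper4.SQ.GoalsR

/-!
Project SQ (MP_bb32d1_al), stage B, part Q, packet DPI: the relation `(D)`.
-/

set_option autoImplicit false
set_option linter.unusedSectionVars false

namespace Pool.Agent.Helper37.SQ

noncomputable section

open Matrix Pool.Agent.Helper19.SQ Pool.Agent.Helper34.SQ Pool.Agent.Helper41.SQ
  Pool.Agent.Helper4.SQ

/-- A set of commuting elements lies in the image of a commutative algebra. -/
theorem comm_model {B : Type} [Ring B] [Algebra ℂ B] (s : Set B)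
    (hs : ∀ a ∈ s, ∀ b ∈ s, a * b = b * a) :
    ∃ (R : Type) (_ : CommRing R) (_ : Algebra ℂ R) (j : R →ₐ[ℂ] B), Function.Injective j ∧
      ∀ a ∈ s, ∃ r, j r = a := by
  letI : CommRing (Algebra.adjoin ℂ s) := Algebra.adjoinCommRingOfComm ℂ hs
  refine ⟨Algebra.adjoin ℂ s, inferInstance, inferInstance, (Algebra.adjoin ℂ s).val,
    Subtype.val_injective, fun a ha => ⟨⟨a, Algebra.subset_adjoin ha⟩, rfl⟩⟩

theorem piv_map {B B' : Type} [Ring B] [Algebra ℂ B] [Ring B'] [Algebra ℂ B'] (f : B →ₐ[ℂ] B')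
    (b β : ℕ → B) (k : ℕ) :
    f (piv b β k) = piv (fun k => f (b k)) (fun k => f (β k)) k := by
  cases k with
  | zero => exact map_zero f
  | succ k =>
    simp only [piv, map_sub, map_smul, map_sum, map_mul]

section

variable {A : Type} [Ring A] [Algebra ℂ A] {ι : Type} [Fintype ι] [DecidableEq ι]

/-- `a ↦ diag(a)`. -/
def dgH : A →ₐ[ℂ] Matrix ι ι A := Matrix.scalarAlgHom ι ℂ

theorem dgH_apply (a : A) : (dgH a : Matrix ι ι A) = Matrix.diagonal fun _ => a := rfl

theorem dpi1 (h0 : S_CORE0) (hB : S_BETA) (hC : S_CREC) (hP : S_PSER)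
    (C : Core0 A ι) (q : ℂ) (P : CoreQ C q) (k : ℕ) :
    C.δ (C.pi k) = Matrix.diagonal (fun _ => C.pi k) - ((q ^ k - q⁻¹ ^ k) ^ 2) • C.X ^ k := by
  obtain ⟨-, -, -, -, -, -, hb, hβ, -, -, hrec, -, -⟩ := h0 A ι C
  obtain ⟨hβc, hcq⟩ := hB A ι C q P
  have hrecC := hC A ι C q P
  have hω := P.ωq
  have hκ := P.κ2q
  set s : Set (Matrix ι ι A) := {M | M = C.X ∨ (∃ z, (∀ a, z * a = a * z) ∧ M = C.δ z) ∨
    (∃ z, (∀ a, z * a = a * z) ∧ M = dgH z)} with hs
  have hcomm : ∀ a ∈ s, ∀ b ∈ s, a * b = b * a := by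
    rintro a (rfl | ⟨z, hz, rfl⟩ | ⟨z, hz, rfl⟩) b (rfl | ⟨z', hz', rfl⟩ | ⟨z', hz', rfl⟩)
    · rfl
    · exact C.Xδ z'
    · exact (diag_comm hz' _).symm
    · exact (C.Xδ z).symm
    · rw [← map_mul, ← map_mul, hz]
    · exact (diag_comm hz' _).symm
    · exact diag_comm hz _
    · exact diag_comm hz _
    · exact diag_comm hz _
  obtain ⟨R, _, _, j, hj, hR⟩ := comm_model s hcomm
  obtain ⟨X, hX⟩ := hR C.X (Or.inl rfl)
  have hde : ∀ z : A, (∀ a, z * a = a * z) → ∃ r, j r = C.δ z := fun z hz =>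
    hR _ (Or.inr (Or.inl ⟨z, hz, rfl⟩))
  have hdg : ∀ z : A, (∀ a, z * a = a * z) → ∃ r, j r = dgH z := fun z hz =>
    hR _ (Or.inr (Or.inr ⟨z, hz, rfl⟩))
  choose c hc using fun k => hdg (cq C k) (hcq k)
  choose c' hc' using fun k => hde (cq C k) (hcq k)
  choose b hbj using fun k => hdg (C.b k) (hb k)
  choose b' hbj' using fun k => hde (C.b k) (hb k)
  choose β hβj using fun k => hdg (C.β k) (hβ k)
  choose β' hβj' using fun k => hde (C.β k) (hβ k)
  have key := hP R X q c c' b β b' β' P.q_ne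
    (by
      intro k hk
      apply hj
      rw [hc', hrecC k hk, hω]
      simp only [map_add, map_smul, map_sum, map_mul, map_pow, hc, hc', hX, dgH_apply])
    (by
      intro k
      apply hj
      rw [hβj, hβc, hκ, map_smul, map_smul, hc])
    (by
      intro k
      apply hj
      rw [hβj', hβc, hκ, map_smul, map_smul, hc'])
    (by
      intro k
      apply hj
      rw [hbj, hrec k]
      simp only [map_add, map_sum, map_mul, hβj, hbj])
    (by
      intro k
      apply hj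
      rw [hbj', hrec k]
      simp only [map_add, map_sum, map_mul, hβj', hbj'])
    k
  have key2 := congrArg j key
  rw [map_sub, map_smul, map_pow, hX, piv_map, piv_map] at key2
  simp only [hbj, hbj', hβj, hβj'] at key2
  rw [← piv_map, ← piv_map, dgH_apply] at key2
  exact key2

theorem dpi2 (C : Core0 A ι) (q : ℂ) (k : ℕ)
    (h : C.δ (C.pi k) = Matrix.diagonal (fun _ => C.pi k)
      - ((q ^ k - q⁻¹ ^ k) ^ 2) • C.X ^ k) :
    C.ε (C.pi k) = Matrix.diagonal (fun _ => C.pi k)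
      + ((q ^ k - q⁻¹ ^ k) ^ 2) • vv C.ε (C.X ^ k) := by
  have h1 : vv C.ε (C.δ (C.pi k)) = Matrix.diagonal (fun _ => C.pi k) := by
    ext K I
    rw [vv_apply, C.cap0, Matrix.diagonal_apply]
    by_cases hKI : K = I
    · rw [if_pos hKI, if_pos hKI.symm]
    · rw [if_neg hKI, if_neg fun h => hKI h.symm]
  have h2 : vv C.ε (Matrix.diagonal (fun _ => C.pi k)) = C.ε (C.pi k) := by
    ext K I
    rw [vv_apply, Finset.sum_eq_single K]
    · rw [Matrix.diagonal_apply_eq]
    · intro P _ hPK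
      rw [Matrix.diagonal_apply_ne _ hPK, map_zero]
      rfl
    · intro h; exact absurd (Finset.mem_univ _) h
  have h3 : vv C.ε (Matrix.diagonal (fun _ => C.pi k) - ((q ^ k - q⁻¹ ^ k) ^ 2) • C.X ^ k)
      = vv C.ε (Matrix.diagonal (fun _ => C.pi k))
        - ((q ^ k - q⁻¹ ^ k) ^ 2) • vv C.ε (C.X ^ k) := by
    ext K I
    rw [Matrix.sub_apply, Matrix.smul_apply, vv_apply, vv_apply, vv_apply, Finset.smul_sum,
      ← Finset.sum_sub_distrib]
    refine Finset.sum_congr rfl fun P _ => ?_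
    rw [Matrix.sub_apply, Matrix.smul_apply, map_sub, map_smul, Matrix.sub_apply,
      Matrix.smul_apply]
  have h4 := congrArg (vv C.ε) h
  rw [h1, h3, h2] at h4
  rw [h4]
  abel

end

/-- **DPI**. -/
theorem sDPI (h0 : S_CORE0) (hB : S_BETA) (hC : S_CREC) (hP : S_PSER) : S_DPI := by
  intro A _ _ ι _ _ C q P k
  exact ⟨dpi1 h0 hB hC hP C q P k, dpi2 C q k (dpi1 h0 hB hC hP C q P k)⟩

end

end Pool.Agent.Helper37.SQ
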